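import Pool.Agent.helper62.DP8.Spec

set_option autoImplicit false

namespace Pool.Agent.helper62.DP8

theorem CHK_add {V : Type} {G : SimpleGraph V} {s : St} {v : ℕ → V} (h : Real G s v) {x y : ℕ} (hx : x < s.n) (hy : y < s.n)
    (ha : G.Adj (v x) (v y)) : Real G (s.add x y) v where
  n32 := h.n32
  inj := h.inj
  wfA := by
    intro e he
    rcases List.mem_cons.mp he with h1 | h1
    · subst h1
      exact ⟨hx, hy, ha⟩
    · exact h.wfA e h1
  wfNA := h.wfNA
  wfNR := h.wfNR

theorem CHK_na {V : Type} {G : SimpleGraph V} {s : St} {v : ℕ → V} (h : Real G s v) {x y : ℕ} (hx : x < s.n) (hy : y < s.n)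
    (ha : ¬ G.Adj (v x) (v y)) : Real G (s.na x y) v where
  n32 := h.n32
  inj := h.inj
  wfA := h.wfA
  wfNA := by
    intro e he
    rcases List.mem_cons.mp he with h1 | h1
    · subst h1
      exact ⟨hx, hy, ha⟩
    · exact h.wfNA e h1
  wfNR := h.wfNR

theorem CHK_nr {V : Type} {G : SimpleGraph V} {s : St} {v : ℕ → V} (h : Real G s v) {x y : ℕ} (hx : x < s.n) (hy : y < s.n)
    (hxy : x ≠ y) (ha : ¬ (sq G).Adj (v x) (v y)) : Real G (s.nr x y) v where
  n32 := h.n32
  inj := h.inj
  wfA := h.wfA
  wfNA := by
    intro e he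
    rcases List.mem_cons.mp he with h1 | h1
    · subst h1
      refine ⟨hx, hy, fun h2 => ha ⟨?_, Or.inl h2⟩⟩
      intro h3
      exact hxy (h.inj x hx y hy h3)
    · exact h.wfNA e h1
  wfNR := by
    intro e he
    rcases List.mem_cons.mp he with h1 | h1
    · subst h1
      exact ⟨hx, hy, hxy, ha⟩
    · exact h.wfNR e h1

theorem CHK_blt {a b : ℕ} (h : Nat.blt a b = true) : a < b := by
  have h1 : Nat.ble (a + 1) b = true := h
  exact Nat.le_of_ble_eq_true h1

theorem CHK_nbeq {a b : ℕ} (h : (!(Nat.beq a b)) = true) : a ≠ b := by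
  intro hab
  subst hab
  simp at h

theorem CHK (hWTB : WTB_stmt) (hCRT : CRT_stmt) (hOPT : OPT_stmt) (hNBS : NBS_stmt) (hCLN : CLN_stmt) (hPTS : PTS_stmt)
    (hSPP : SPP_stmt) : CHK_stmt := by
  intro V _ G g hg hconn hcub hgir hpet tr
  have hW : ∀ (α : Type) (g : ℕ) (s : St) (k : Tb → α), withTb g s k = k (tbl g s) := hWTB.1
  induction tr with
  | nil =>
    intro l hl s hs v hv
    cases l with
    | nil => exact absurd hs (List.not_mem_nil)
    | cons a b =>
      have h1 : false = true := hl
      exact absurd h1 (by decide)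
  | cons t u iht ihu =>
    intro l hl s hs v hv
    cases l with
    | nil =>
      have h1 : false = true := hl
      exact absurd h1 (by decide)
    | cons a b =>
      have h1 : (check g t [a] && check g u b) = true := hl
      rw [Bool.and_eq_true] at h1
      rcases List.mem_cons.mp hs with h2 | h2
      · exact iht [a] h1.1 s (by rw [h2]; exact List.mem_singleton.mpr rfl) v hv
      · exact ihu b h1.2 s h2 v hv
  | clean =>
    intro l hl s hs v hv
    match l, hl, hs with
    | [], hl, hs => exact absurd hs (List.not_mem_nil)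
    | [a], hl, hs =>
      have h2 : s = a := List.mem_singleton.mp hs
      subst h2
      have h1 : withTb g s (fun t => isClean g s t) = true := hl
      rw [hW] at h1
      exact hCLN V G g s v hg hconn hcub hgir hv h1
    | a :: b :: c, hl, hs =>
      have h1 : false = true := hl
      exact absurd h1 (by decide)
  | pet =>
    intro l hl s hs v hv
    match l, hl, hs with
    | [], hl, hs => exact absurd hs (List.not_mem_nil)
    | [a], hl, hs =>
      have h2 : s = a := List.mem_singleton.mp hs
      subst h2
      have h1 : withTb g s (fun t => isPet s t) = true := hl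
      rw [hW] at h1
      obtain ⟨e⟩ := hPTS V G g s v hcub hv h1
      exact (hpet.false e).elim
    | a :: b :: c, hl, hs =>
      have h1 : false = true := hl
      exact absurd h1 (by decide)
  | cert S ms =>
    intro l hl s hs v hv
    match l, hl, hs with
    | [], hl, hs => exact absurd hs (List.not_mem_nil)
    | [a], hl, hs =>
      have h2 : s = a := List.mem_singleton.mp hs
      subst h2
      have h1 : withTb g s (fun t => okCert s t S ms) = true := hl
      rw [hW] at h1
      exact hCRT V G g s v hg hconn hcub hgir hv S ms h1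
    | a :: b :: c, hl, hs =>
      have h1 : false = true := hl
      exact absurd h1 (by decide)
  | nbr x u ih =>
    intro l hl s hs v hv
    match l, hl, hs with
    | [], hl, hs => exact absurd hs (List.not_mem_nil)
    | [a], hl, hs =>
      have h2 : s = a := List.mem_singleton.mp hs
      subst h2
      have h1 : (Nat.blt x s.n && Nat.blt s.n 32 && withTb g s fun t => tb t.D2 x && check g u (nbrs s t x s.n)) = true := hl
      rw [hW] at h1
      simp only [Bool.and_eq_true] at h1
      obtain ⟨⟨h3, h4⟩, h5, h6⟩ := h1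
      obtain ⟨s', hs', v', hv'⟩ := hNBS V G g s v hg hcub hgir hv (CHK_blt h4) x (CHK_blt h3) h5
      exact ih _ h6 s' hs' v' hv'
    | a :: b :: c, hl, hs =>
      have h1 : false = true := hl
      exact absurd h1 (by decide)
  | adj x y u1 u2 ih1 ih2 =>
    intro l hl s hs v hv
    match l, hl, hs with
    | [], hl, hs => exact absurd hs (List.not_mem_nil)
    | [a], hl, hs =>
      have h2 : s = a := List.mem_singleton.mp hs
      subst h2
      have h1 : (Nat.blt x s.n && Nat.blt y s.n && !(Nat.beq x y) && check g u1 [s.na x y] &&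
        withTb g s fun t => !(tb (ent t.P x) y) || (!(tb (ent t.R x) y) && check g u2 [s.add x y])) = true := hl
      rw [hW] at h1
      simp only [Bool.and_eq_true, Bool.or_eq_true] at h1
      obtain ⟨⟨⟨⟨h3, h4⟩, h5⟩, h6⟩, h7⟩ := h1
      have hx := CHK_blt h3
      have hy := CHK_blt h4
      by_cases hA : G.Adj (v x) (v y)
      · have h8 := hSPP V G g s v hg hcub hgir hv x y hx hy hA
        rcases h7 with h7 | h7
        · rw [h8] at h7
          exact absurd h7 (by decide)
        · exact ih2 _ h7.2 _ (List.mem_singleton.mpr rfl) v (CHK_add hv hx hy hA)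
      · exact ih1 _ h6 _ (List.mem_singleton.mpr rfl) v (CHK_na hv hx hy hA)
    | a :: b :: c, hl, hs =>
      have h1 : false = true := hl
      exact absurd h1 (by decide)
  | rel x y u1 u2 ih1 ih2 =>
    intro l hl s hs v hv
    match l, hl, hs with
    | [], hl, hs => exact absurd hs (List.not_mem_nil)
    | [a], hl, hs =>
      have h2 : s = a := List.mem_singleton.mp hs
      subst h2
      have h1 : (Nat.blt x s.n && Nat.blt y s.n && Nat.blt s.n 32 && !(Nat.beq x y) && check g u1 [s.nr x y] &&
        withTb g s fun t => !(tb (ent t.K x) y) && check g u2 (opts g s t x y)) = true := hl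
      rw [hW] at h1
      simp only [Bool.and_eq_true] at h1
      obtain ⟨⟨⟨⟨⟨h3, h4⟩, h5⟩, h6⟩, h7⟩, h8, h9⟩ := h1
      have hx := CHK_blt h3
      have hy := CHK_blt h4
      have hxy : x ≠ y := CHK_nbeq h6
      by_cases hA : (sq G).Adj (v x) (v y)
      · obtain ⟨s', hs', v', hv'⟩ := hOPT V G g s v hg hcub hgir hv (CHK_blt h5) x y hx hy hA
        exact ih2 _ h9 s' hs' v' hv'
      · exact ih1 _ h7 _ (List.mem_singleton.mpr rfl) v (CHK_nr hv hx hy hxy hA)
    | a :: b :: c, hl, hs =>
      have h1 : false = true := hl
      exact absurd h1 (by decide)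

end Pool.Agent.helper62.DP8
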